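import Pool.Agent.BEP.Stmts

set_option autoImplicit false

/-!
# Squad BEP (MP_be01ff_an), row SPP: the spectrum of the product
-/

namespace Pool.Agent.BEP.H50

open Set Filter Topology MeasureTheory
open scoped InnerProductSpace ENNReal
open Pool.Agent Pool.Agent.BE01 Pool.Agent.BEG Pool.Agent.BEP

theorem spp (pmp : PmpStmt) (pev : PevStmt) (ort : OrtStmt) (bas : BasStmt) (cpk : CpkStmt)
    (pfi : PfiStmt) : SppStmt := by
  intro d m Ω1 Ω2 G hd hm h1 h2 hG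
  have hdom : Dom (Pr Ω1 Ω2) := by
    obtain ⟨_, _, _, _, _, _, h⟩ := pmp d m
    exact h Ω1 Ω2 h1 h2
  refine ⟨?_, ?_⟩
  · rintro l1 ⟨u, hui, hu0, hue⟩ l2 ⟨v, _, hv0, hve⟩
    obtain ⟨w, _, hwe, hw0, hwi⟩ := pev d m Ω1 Ω2 l1 l2 u v h1 h2 hue hve
    exact ⟨w, hwi G hG hui, hw0 hu0 hv0, hwe⟩
  · rintro l ⟨u, hui, hu0, hue⟩
    by_contra hcon
    obtain ⟨b, om, hb⟩ := bas m Ω2 hm h2
    obtain ⟨w, hwi, hw, hz⟩ := pfi d m Ω1 Ω2 G b u h1 h2 hG hui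
    refine hu0 (hz fun k => ?_)
    refine cpk d Ω1 G (w k) hd h1 hG (hwi k) ?_
    intro l' η hηi hηe
    by_cases hη : η = 0
    · rw [hη, inner_zero_right]
    · obtain ⟨v, hv, hve, _⟩ := pev d m Ω1 Ω2 l' (om k) η (b k) h1 h2 hηe (hb k)
      rw [hw k η v hv]
      refine ort (d + m) (Pr Ω1 Ω2) l (l' + om k) u v hdom hue hve ?_
      intro heq
      refine hcon ⟨l', ⟨η, hηi, hη, hηe⟩, om k, ⟨b k, ?_, b.orthonormal.ne_zero k, hb k⟩, heq⟩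
      intro g hg
      exact absurd hg.1 (Set.notMem_empty _)

end Pool.Agent.BEP.H50
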